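import Pool.Agent.H10.BL.Stmts
import Pool.Agent.H49.RIC.WAA

/-!
# BL, module B35: polynomial heights, dyadic in the radical
-/

set_option autoImplicit false

namespace Pool.BL

open Finset Pool.Agent.H98.ABCR Pool.SHA

/-- **B35**. -/
theorem b35_thm (h1 : S_CLW) : S_B35 := by
  classical
  intro κ ε hκ hε
  obtain ⟨ε0, hε0⟩ : ∃ e, e = min ε 1 := ⟨_, rfl⟩
  have h0 : 0 < ε0 := by rw [hε0]; exact lt_min hε one_pos
  have h01 : ε0 ≤ 1 := by rw [hε0]; exact min_le_right _ _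
  have h02 : ε0 ≤ ε := by rw [hε0]; exact min_le_left _ _
  obtain ⟨C, hC, hW⟩ := h1 κ (ε0 / 2) hκ (by linarith)
  have hδ : 0 < ε0 / 2 := by linarith
  have hCC : 1 ≤ (2 / (ε0 / 2) + 1) * (8 * C) := by
    have : 1 ≤ 2 / (ε0 / 2) + 1 := by
      have : 0 ≤ 2 / (ε0 / 2) := by positivity
      linarith
    nlinarith
  refine ⟨(2 / (ε0 / 2) + 1) * (8 * C), hCC, ?_⟩
  intro X F hX hF
  have hX0 : 0 < X := by linarith
  have key := Pool.RIC.WAA.dya (3 / 5 + ε0 / 2) (ε0 / 2) (8 * C) X hδ (by linarith) hX F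
    (fun v hv => (hF v hv).2.1) (by
    intro j hj
    obtain ⟨Z, hZ⟩ : ∃ Z : ℝ, Z = (2 : ℝ) ^ (j + 1) := ⟨_, rfl⟩
    have hZ1 : 1 ≤ Z := by
      rw [hZ]
      exact one_le_pow₀ (by norm_num)
    have hZX : Z ≤ 2 * X := by
      have h6 : 2 ^ j ≤ ⌊X⌋₊ := by
        refine le_trans (Nat.pow_le_pow_right (by norm_num) hj) (Nat.pow_log_le_self 2 ?_)
        have : 1 ≤ ⌊X⌋₊ := Nat.le_floor (by exact_mod_cast hX)
        omega
      have h7 : ((2 : ℝ)) ^ j ≤ X := le_trans (by exact_mod_cast h6) (Nat.floor_le hX0.le)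
      rw [hZ, pow_succ]
      linarith
    have base : ∀ v ∈ F, Nat.log 2 (RR v) = j →
        IsTri v ∧ (RR v : ℝ) ≤ Z ∧ hh v ≤ κ * Real.log Z ∧ Z / 2 ≤ (v.1 : ℝ) + v.2 := by
      intro v hv hvj
      obtain ⟨t1, t2, t3, t4⟩ := hF v hv
      have hR0 : 0 < RR v := Pool.RIC.WAA.rad_pos _
      have hR0' : (0 : ℝ) < RR v := by exact_mod_cast hR0
      have h5 : RR v < 2 ^ (j + 1) := by
        rw [← hvj]
        exact Nat.lt_pow_succ_log_self (by norm_num) _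
      have h6 : 2 ^ j ≤ RR v := by
        rw [← hvj]
        exact Nat.pow_log_le_self 2 (by omega)
      have h5' : (RR v : ℝ) ≤ Z := by
        rw [hZ]
        exact_mod_cast h5.le
      have h6' : Z / 2 ≤ (RR v : ℝ) := by
        have h7 : (2 : ℝ) ^ j ≤ (RR v : ℝ) := by exact_mod_cast h6
        rw [hZ, pow_succ]
        linarith
      have h8 : (RR v : ℝ) ≤ (v.1 : ℝ) + v.2 := by exact_mod_cast t3
      refine ⟨t1, h5', ?_, h6'.trans h8⟩
      exact t4.trans (mul_le_mul_of_nonneg_left (Real.log_le_log hR0' h5') (by linarith))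
    have e1 : ((F.filter (fun v => Nat.log 2 (RR v) = j ∧ v.1 ≤ v.2)).card : ℝ) ≤
        C * Z ^ (3 / 5 + ε0 / 2) := by
      refine hW Z _ 0 hZ1 ?_
      intro v hv
      rw [Finset.mem_filter] at hv
      obtain ⟨t1, t2, t3, t4⟩ := base v hv.1 hv.2.1
      refine ⟨t1, t2, t3, ?_⟩
      have h9 : (v.1 : ℝ) ≤ v.2 := by exact_mod_cast hv.2.2
      intro i hi
      fin_cases i
      · exact absurd rfl hi
      · show Z / 4 ≤ ((v.2 : ℕ) : ℝ)
        linarith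
      · show Z / 4 ≤ ((v.1 + v.2 : ℕ) : ℝ)
        push_cast
        linarith
    have e2 : ((F.filter (fun v => Nat.log 2 (RR v) = j ∧ ¬ v.1 ≤ v.2)).card : ℝ) ≤
        C * Z ^ (3 / 5 + ε0 / 2) := by
      refine hW Z _ 1 hZ1 ?_
      intro v hv
      rw [Finset.mem_filter] at hv
      obtain ⟨t1, t2, t3, t4⟩ := base v hv.1 hv.2.1
      refine ⟨t1, t2, t3, ?_⟩
      have h9 : (v.2 : ℝ) ≤ v.1 := by exact_mod_cast (not_le.1 hv.2.2).le
      intro i hi
      fin_cases i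
      · show Z / 4 ≤ ((v.1 : ℕ) : ℝ)
        linarith
      · exact absurd rfl hi
      · show Z / 4 ≤ ((v.1 + v.2 : ℕ) : ℝ)
        push_cast
        linarith
    have e3 : ((F.filter (fun v => Nat.log 2 (RR v) = j)).card : ℝ) =
        ((F.filter (fun v => Nat.log 2 (RR v) = j ∧ v.1 ≤ v.2)).card : ℝ) +
        ((F.filter (fun v => Nat.log 2 (RR v) = j ∧ ¬ v.1 ≤ v.2)).card : ℝ) := by
      rw [← Finset.filter_filter, ← Finset.filter_filter, ← Nat.cast_add,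
        Finset.card_filter_add_card_filter_not]
    have e4 : Z ^ (3 / 5 + ε0 / 2) ≤ 4 * X ^ (3 / 5 + ε0 / 2) := by
      calc Z ^ (3 / 5 + ε0 / 2) ≤ (2 * X) ^ (3 / 5 + ε0 / 2) :=
            Real.rpow_le_rpow (by linarith) hZX (by linarith)
        _ = (2 : ℝ) ^ (3 / 5 + ε0 / 2) * X ^ (3 / 5 + ε0 / 2) :=
            Real.mul_rpow (by norm_num) hX0.le
        _ ≤ 4 * X ^ (3 / 5 + ε0 / 2) := by
            refine mul_le_mul_of_nonneg_right ?_ (Real.rpow_nonneg hX0.le _)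
            calc (2 : ℝ) ^ (3 / 5 + ε0 / 2) ≤ (2 : ℝ) ^ (2 : ℝ) :=
                  Real.rpow_le_rpow_of_exponent_le (by norm_num) (by linarith)
              _ = 4 := by norm_num
    have e5 : C * Z ^ (3 / 5 + ε0 / 2) ≤ C * (4 * X ^ (3 / 5 + ε0 / 2)) :=
      mul_le_mul_of_nonneg_left e4 (by linarith)
    rw [e3]
    calc ((F.filter (fun v => Nat.log 2 (RR v) = j ∧ v.1 ≤ v.2)).card : ℝ) +
        ((F.filter (fun v => Nat.log 2 (RR v) = j ∧ ¬ v.1 ≤ v.2)).card : ℝ) ≤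
        C * (4 * X ^ (3 / 5 + ε0 / 2)) + C * (4 * X ^ (3 / 5 + ε0 / 2)) :=
          add_le_add (e1.trans e5) (e2.trans e5)
      _ = 8 * C * X ^ (3 / 5 + ε0 / 2) := by ring)
  refine key.trans ?_
  refine mul_le_mul_of_nonneg_left ?_ (by linarith)
  exact Real.rpow_le_rpow_of_exponent_le hX (by linarith)

end Pool.BL
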